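import Mathlib
import Pool.Agent.X88.Collide2

/-!
# Empty collision sets over the algebraic closure of a finite field

For every prime `p` there is a polynomial `g`, not additive even up to a constant, with
`C_g(α₁, α₂; β)` empty for suitable points of the algebraic closure of the field of `p` elements.
-/

set_option autoImplicit false

open Polynomial

namespace Pool.Agent.Results.MP_e06cf1_nt.EmptyCollisionSets

/-- `g (x + y) = g x + g y` for all `x`, `y` in the (infinite) algebraic closure of the field of
`p` elements. -/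
def IsAdditive {p : ℕ} [Fact p.Prime] (g : (AlgebraicClosure (ZMod p))[X]) : Prop :=
  ∀ x y : AlgebraicClosure (ZMod p), g.eval (x + y) = g.eval x + g.eval y

/-- The set `C_g(α₁, α₂; β)` of all parameters `l` such that `β` is in the strict forward orbits of
`α₁` and of `α₂` under `x ↦ g x + l`. -/
def collisions {p : ℕ} [Fact p.Prime] (g : (AlgebraicClosure (ZMod p))[X])
    (α₁ α₂ β : AlgebraicClosure (ZMod p)) : Set (AlgebraicClosure (ZMod p)) :=
  {l | ∃ m n : ℕ, 1 ≤ m ∧ 1 ≤ n ∧ (fun x => g.eval x + l)^[m] α₁ = β ∧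
    (fun x => g.eval x + l)^[n] α₂ = β}

section

variable (p : ℕ) [hp : Fact p.Prime]

/-- the closure of the field of `p` elements -/
abbrev K := AlgebraicClosure (ZMod p)

instance : CharP (K p) p :=
  charP_of_injective_algebraMap (algebraMap (ZMod p) (K p)).injective p

theorem general (g : (K p)[X]) (a b : K p) (ha : ∀ x, g.eval (x + a) = g.eval x + a)
    (hb : ∀ x, g.eval (x + b) = g.eval x + b) (hind : LinearIndependent (ZMod p) ![a, b])
    (t : K p) : collisions g t (t + a) (t + b) = ∅ := by
  rw [Set.eq_empty_iff_forall_notMem]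
  rintro l ⟨m, n, hm, hn, h1, h2⟩
  rw [LinearIndependent.pair_iff] at hind
  refine Pool.Agent.X88.Collide.no_collision ha hb ?_ l t m n hm hn h1 h2
  intro i j hij
  have h := hind (i : ZMod p) (j : ZMod p) (by
    rw [Algebra.smul_def, Algebra.smul_def, map_intCast, map_intCast]; exact hij)
  constructor
  · have := congrArg (algebraMap (ZMod p) (K p)) h.1
    rwa [map_intCast, map_zero] at this
  · have := congrArg (algebraMap (ZMod p) (K p)) h.2
    rwa [map_intCast, map_zero] at this

/-- the polynomial `x + (x ^ (p ^ 2) - x) ^ (p + 1)` -/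
noncomputable def gg : (K p)[X] := X + (X ^ p ^ 2 - X) ^ (p + 1)

lemma one_lt_sq : 1 < p ^ 2 := Nat.one_lt_pow (by norm_num) hp.out.one_lt

lemma natDegree_A : (X ^ p ^ 2 - X : (K p)[X]).natDegree = p ^ 2 := by
  have h1 : (X : (K p)[X]).natDegree < (X ^ p ^ 2 : (K p)[X]).natDegree := by
    rw [natDegree_X, natDegree_X_pow]; exact one_lt_sq p
  rw [natDegree_sub_eq_left_of_natDegree_lt h1, natDegree_X_pow]

lemma gg_natDegree : 2 ≤ (gg p).natDegree := by
  have h2 := one_lt_sq p
  have h0 : ((X ^ p ^ 2 - X) ^ (p + 1) : (K p)[X]).natDegree = (p + 1) * p ^ 2 := by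
    rw [natDegree_pow, natDegree_A]
  have h1 : (X : (K p)[X]).natDegree < ((X ^ p ^ 2 - X) ^ (p + 1) : (K p)[X]).natDegree := by
    rw [natDegree_X, h0]; nlinarith [hp.out.two_le]
  rw [gg, natDegree_add_eq_right_of_natDegree_lt h1, h0]
  nlinarith [hp.out.two_le]

lemma pow_sq_add (x y : K p) : (x + y) ^ p ^ 2 = x ^ p ^ 2 + y ^ p ^ 2 :=
  add_pow_char_pow x y p 2

lemma gg_comm (a : K p) (ha : a ^ p ^ 2 = a) (x : K p) :
    (gg p).eval (x + a) = (gg p).eval x + a := by
  simp only [gg, eval_add, eval_X, eval_pow, eval_sub]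
  rw [pow_sq_add, ha]
  ring

lemma not_additive (c : K p) : ¬ IsAdditive (gg p + C c) := by
  intro h
  have hp1 := hp.out.one_lt
  have hA : ∀ x y : K p, (x + y) ^ p ^ 2 - (x + y) = (x ^ p ^ 2 - x) + (y ^ p ^ 2 - y) := by
    intro x y; rw [pow_sq_add]; ring
  have hsurj : ∀ u : K p, ∃ x : K p, x ^ p ^ 2 - x = u := by
    intro u
    have hd : (X ^ p ^ 2 - X - C u : (K p)[X]).degree ≠ 0 := by
      intro h0
      have h00 : (X ^ p ^ 2 - X - C u : (K p)[X]).natDegree = 0 :=
        natDegree_eq_of_degree_eq_some h0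
      rw [natDegree_sub_C, natDegree_A] at h00
      have := one_lt_sq p
      omega
    obtain ⟨x, hx⟩ := IsAlgClosed.exists_root _ hd
    refine ⟨x, ?_⟩
    simp only [IsRoot, eval_sub, eval_pow, eval_X, eval_C] at hx
    exact sub_eq_zero.mp hx
  have hc : c = 0 := by
    have := h 0 0
    simp only [gg, eval_add, eval_X, eval_pow, eval_sub, eval_C] at this
    have h0 : ((0 : K p) ^ p ^ 2 - 0) ^ (p + 1) = 0 := by
      rw [zero_pow (by have := one_lt_sq p; omega)]; simp
    rw [add_zero, h0] at this
    linear_combination -this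
  subst hc
  have hrel : ∀ u v : K p, u ^ p * v + v ^ p * u = 0 := by
    intro u v
    obtain ⟨x, hx⟩ := hsurj u
    obtain ⟨y, hy⟩ := hsurj v
    have := h x y
    simp only [gg, eval_add, eval_X, eval_pow, eval_sub, eval_C, add_zero] at this
    rw [hA, hx, hy, pow_succ, add_pow_char] at this
    linear_combination this
  have hinf : Infinite (K p) := IsAlgClosed.instInfinite
  have hzero : (X ^ p + X : (K p)[X]) = 0 := by
    apply Polynomial.funext
    intro u
    have := hrel u 1
    simp only [mul_one, one_pow, one_mul] at this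
    simpa using this
  have h1 : (X : (K p)[X]).natDegree < (X ^ p : (K p)[X]).natDegree := by
    rw [natDegree_X, natDegree_X_pow]; exact hp1
  have h2 : (X ^ p + X : (K p)[X]).natDegree = p := by
    rw [natDegree_add_eq_left_of_natDegree_lt h1, natDegree_X_pow]
  rw [hzero, natDegree_zero] at h2
  omega

lemma exists_independent : ∃ a : K p, a ^ p ^ 2 = a ∧ LinearIndependent (ZMod p) ![a, 1] := by
  obtain ⟨a, h1, h2⟩ := Pool.Agent.X88.Collide.exists_quadratic (K := K p) p
  refine ⟨a, h1, ?_⟩
  rw [LinearIndependent.pair_iff]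
  intro s r h
  rw [Algebra.smul_def, Algebra.smul_def, mul_one] at h
  by_cases hs : s = 0
  · subst hs
    rw [map_zero, zero_mul, zero_add, map_eq_zero] at h
    exact ⟨rfl, h⟩
  · exfalso
    apply h2
    have hs' : algebraMap (ZMod p) (K p) s ≠ 0 := by rwa [Ne, map_eq_zero]
    have ha : a = algebraMap (ZMod p) (K p) (-r / s) := by
      rw [map_div₀, map_neg, eq_div_iff hs']
      linear_combination h
    rw [ha, ← map_pow, ZMod.pow_card]

end

/-- **The collision sets over the algebraic closure of a finite field can be empty.**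

(1) For every prime `p` there is a polynomial `g` of degree at least two over the algebraic closure
of the field of `p` elements, which is not additive, not even up to a constant, and there are points
`α₁`, `α₂`, `β` with `C_g(α₁, α₂; β)` empty.

(2) In fact `C_g(t, t + a; t + b)` is empty for every `t` and every polynomial `g` which commutes
with the translations by `a` and by `b`, where `a`, `b` are linearly independent over the field
of `p` elements. -/
theorem result (p : ℕ) [Fact p.Prime] :
    (∃ (g : (AlgebraicClosure (ZMod p))[X]) (α₁ α₂ β : AlgebraicClosure (ZMod p)),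
      2 ≤ g.natDegree ∧ (∀ c, ¬ IsAdditive (g + C c)) ∧ collisions g α₁ α₂ β = ∅) ∧
    (∀ (g : (AlgebraicClosure (ZMod p))[X]) (a b : AlgebraicClosure (ZMod p)),
      (∀ x, g.eval (x + a) = g.eval x + a) → (∀ x, g.eval (x + b) = g.eval x + b) →
      LinearIndependent (ZMod p) ![a, b] →
      ∀ t, collisions g t (t + a) (t + b) = ∅) := by
  refine ⟨?_, fun g a b ha hb hind t => general p g a b ha hb hind t⟩
  obtain ⟨a, h1, h2⟩ := exists_independent p
  exact ⟨gg p, 0, 0 + a, 0 + 1, gg_natDegree p, not_additive p,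
    general p (gg p) a 1 (gg_comm p a h1) (gg_comm p 1 (one_pow _)) h2 0⟩

end Pool.Agent.Results.MP_e06cf1_nt.EmptyCollisionSets
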